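import Pool.Agent.KIR.S1a.Stm

/-!
# KIR1-ASY: asymptotics of a rational function with cyclotomic type denominators at `1`
-/

set_option autoImplicit false

namespace Pool.Agent.KIR.S1a

open Filter Topology Polynomial

/-- `∏ (1 - q ^ e) = (1 - q) ^ r * u q` with `u` a polynomial which is positive at `1` and on `(0, 1)`. -/
theorem asy_prod (E : List ℕ) (hE : ∀ e ∈ E, 0 < e) :
    ∃ u : Polynomial ℝ, (∀ q : ℝ, 0 < q → 0 < u.eval q) ∧
      ∀ q : ℝ, (E.map (fun e => 1 - q ^ e)).prod = (1 - q) ^ E.length * u.eval q := by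
  induction E with
  | nil => exact ⟨1, fun q _ => by simp, fun q => by simp⟩
  | cons e E ih =>
    obtain ⟨u, hu1, hu2⟩ := ih (fun e' he' => hE e' (List.mem_cons_of_mem _ he'))
    have he : 0 < e := hE e List.mem_cons_self
    refine ⟨(∑ i ∈ Finset.range e, X ^ i) * u, fun q hq => ?_, fun q => ?_⟩
    · rw [eval_mul]
      refine mul_pos ?_ (hu1 q hq)
      rw [eval_finset_sum]
      refine Finset.sum_pos (fun i _ => ?_) ⟨0, Finset.mem_range.2 he⟩
      simp only [eval_pow, eval_X]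
      positivity
    · rw [List.map_cons, List.prod_cons, hu2, List.length_cons, eval_mul, eval_finset_sum]
      simp only [eval_pow, eval_X]
      have h := mul_neg_geom_sum q e
      rw [← h]
      ring

theorem t_ASY : S_ASY := by
  intro H E κ N C hE hH hq hC
  obtain ⟨u, hu1, hu2⟩ := asy_prod E hE
  have hu0 : 0 < u.eval 1 := hu1 1 one_pos
  have hev : ∀ᶠ q in 𝓝[<] (1 : ℝ), 0 < q ∧ q < 1 := by
    have h : Set.Ioo (0 : ℝ) 1 ∈ 𝓝[<] (1 : ℝ) := Ioo_mem_nhdsLT one_pos
    exact h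
  have hκ : κ ≠ 0 := by
    intro h0
    have h1 := hq (1/2) (by norm_num) (by norm_num)
    rw [h0, eval_zero, hu2] at h1
    have h2 := hH (1/2) (by norm_num) (by norm_num)
    have h3 := hu1 (1/2) (by norm_num)
    have h4 : (0 : ℝ) < (1 - 1/2) ^ E.length := by positivity
    have : 0 < H (1/2) * ((1 - 1/2) ^ E.length * u.eval (1/2)) := by positivity
    linarith
  obtain ⟨κ', hκ', hnd⟩ := exists_eq_pow_rootMultiplicity_mul_and_not_dvd κ hκ 1
  set j := rootMultiplicity 1 κ with hj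
  have hκ1 : κ'.eval 1 ≠ 0 := by
    intro h0
    exact hnd (dvd_iff_isRoot.2 h0)
  -- main identity
  set r := E.length with hr
  set F : ℝ → ℝ := fun q => (-1) ^ j * κ'.eval q / u.eval q with hF
  have hFlim : Tendsto F (𝓝[<] 1) (𝓝 ((-1) ^ j * κ'.eval 1 / u.eval 1)) := by
    have h1 : Tendsto (fun q : ℝ => κ'.eval q) (𝓝[<] 1) (𝓝 (κ'.eval 1)) :=
      (κ'.continuous.tendsto 1).mono_left nhdsWithin_le_nhds
    have h2 : Tendsto (fun q : ℝ => u.eval q) (𝓝[<] 1) (𝓝 (u.eval 1)) :=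
      (u.continuous.tendsto 1).mono_left nhdsWithin_le_nhds
    exact (h1.const_mul _).div h2 hu0.ne'
  have hmain : ∀ q : ℝ, 0 < q → q < 1 → (1 - q) ^ r * H q = (1 - q) ^ j * F q := by
    intro q hq0 hq1
    have h1 := hq q hq0 hq1
    rw [hu2, hκ', eval_mul, eval_pow, eval_sub, eval_X, eval_C] at h1
    have h2 : (q - 1) ^ j = (-1) ^ j * (1 - q) ^ j := by
      rw [← mul_pow]; congr 1; ring
    have h3 := (hu1 q hq0).ne'
    rw [h2] at h1
    simp only [hF]
    field_simp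
    linarith
  have hlne : (-1) ^ j * κ'.eval 1 / u.eval 1 ≠ 0 := by
    refine div_ne_zero (mul_ne_zero (pow_ne_zero _ (by norm_num)) hκ1) hu0.ne'
  set L : ℝ := (-1) ^ j * κ'.eval 1 / u.eval 1 with hL
  have hsub : Tendsto (fun q : ℝ => 1 - q) (𝓝[<] 1) (𝓝 0) := by
    have : Tendsto (fun q : ℝ => 1 - q) (𝓝 1) (𝓝 (1 - 1)) :=
      (continuous_const.sub continuous_id).tendsto 1
    rw [sub_self] at this
    exact this.mono_left nhdsWithin_le_nhds
  have hpow : ∀ n : ℕ, 0 < n → Tendsto (fun q : ℝ => (1 - q) ^ n) (𝓝[<] 1) (𝓝 0) := by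
    intro n hn
    have := hsub.pow n
    rwa [zero_pow hn.ne'] at this
  -- j ≤ r
  have hjr : j ≤ r := by
    by_contra hc
    push Not at hc
    have h1 : Tendsto (fun q => (1 - q) ^ (j - r) * F q) (𝓝[<] 1) (𝓝 (0 * L)) :=
      (hpow (j - r) (by omega)).mul hFlim
    rw [zero_mul] at h1
    have h2 : ∀ᶠ q in 𝓝[<] (1 : ℝ), 1 ≤ (1 - q) ^ (j - r) * F q := by
      filter_upwards [hev] with q hq'
      have h3 := hmain q hq'.1 hq'.2
      have h4 : (0 : ℝ) < (1 - q) ^ r := pow_pos (by linarith [hq'.2]) _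
      have h5 : (1 - q) ^ j = (1 - q) ^ r * (1 - q) ^ (j - r) := by
        rw [← pow_add]; congr 1; omega
      rw [h5, mul_assoc] at h3
      have h6 : H q = (1 - q) ^ (j - r) * F q := mul_left_cancel₀ h4.ne' h3
      rw [← h6]
      exact hH q hq'.1 hq'.2
    have h7 := ge_of_tendsto h1 h2
    linarith
  have hd : ∀ q : ℝ, 0 < q → q < 1 → (1 - q) ^ (r - j) * H q = F q := by
    intro q hq0 hq1
    have h3 := hmain q hq0 hq1
    have h4 : (0 : ℝ) < (1 - q) ^ j := pow_pos (by linarith) _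
    have h5 : (1 - q) ^ r = (1 - q) ^ j * (1 - q) ^ (r - j) := by
      rw [← pow_add]; congr 1; omega
    rw [h5, mul_assoc] at h3
    exact mul_left_cancel₀ h4.ne' h3
  have hlim : Tendsto (fun q => (1 - q) ^ (r - j) * H q) (𝓝[<] 1) (𝓝 L) := by
    refine hFlim.congr' ?_
    filter_upwards [hev] with q hq'
    exact (hd q hq'.1 hq'.2).symm
  have hLpos : 0 < L := by
    refine lt_of_le_of_ne ?_ hlne.symm
    refine ge_of_tendsto hlim ?_
    filter_upwards [hev] with q hq'
    have h1 := hH q hq'.1 hq'.2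
    have h2 : (0 : ℝ) < (1 - q) ^ (r - j) := pow_pos (by linarith [hq'.2]) _
    positivity
  refine ⟨r - j, L, ?_, hLpos, hlim⟩
  by_contra hc
  push Not at hc
  have hC0 : 0 ≤ C := by
    have h1 := hC (1/2) (by norm_num) (by norm_num)
    have h2 := hH (1/2) (by norm_num) (by norm_num)
    have h3 : (0 : ℝ) < (1 - 1/2) ^ N := by positivity
    have : 0 < (1 - 1/2) ^ N * H (1/2) := by positivity
    linarith
  have h1 : Tendsto (fun q : ℝ => (1 - q) ^ (r - j - N) * C) (𝓝[<] 1) (𝓝 (0 * C)) :=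
    (hpow (r - j - N) (by omega)).mul_const C
  rw [zero_mul] at h1
  have h2 : L ≤ 0 := by
    refine le_of_tendsto_of_tendsto hlim h1 ?_
    filter_upwards [hev] with q hq'
    have h3 := hC q hq'.1 hq'.2
    have h4 : (0 : ℝ) < (1 - q) ^ (r - j - N) := pow_pos (by linarith [hq'.2]) _
    have h5 : (1 - q) ^ (r - j) = (1 - q) ^ (r - j - N) * (1 - q) ^ N := by
      rw [← pow_add]; congr 1; omega
    rw [h5, mul_assoc]
    exact mul_le_mul_of_nonneg_left h3 h4.le
  linarith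

end Pool.Agent.KIR.S1a
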