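import Pool.Agent.KIR.S1a.Stm

/-!
# PROJECT KIR, section S1a, piece DIC (helper72): the dichotomy for one function
-/

set_option autoImplicit false

namespace Pool.Agent.KIR.S1a

open MvPolynomial Filter Topology

theorem DIC_lim : Tendsto (fun q : ℝ => 1 - q) (𝓝[<] 1) (𝓝[>] 0) := by
  refine tendsto_nhdsWithin_iff.2 ⟨?_, ?_⟩
  · have h : Tendsto (fun q : ℝ => 1 - q) (𝓝 1) (𝓝 (1 - 1)) := tendsto_const_nhds.sub tendsto_id
    rw [sub_self] at h
    exact h.mono_left nhdsWithin_le_nhds
  · filter_upwards [self_mem_nhdsWithin] with q hq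
    have hq1 : q < 1 := hq
    show (0 : ℝ) < 1 - q
    linarith

theorem t_DIC : S_DIC := by
  intro σ _ w I k L hL h
  have h0 := DIC_lim
  have h00 : Tendsto (fun q : ℝ => 1 - q) (𝓝[<] 1) (𝓝 0) := h0.mono_right nhdsWithin_le_nhds
  refine ⟨⟨L, h⟩, h.limUnder_eq, fun k' hk => ?_, fun k' hk => ?_⟩
  · have key : Tendsto (G k' w I) (𝓝[<] 1) (𝓝 0) := by
      have h1 : Tendsto (fun q : ℝ => (1 - q) ^ (k - k') * G k w I q) (𝓝[<] 1) (𝓝 (0 * L)) := by
        refine Tendsto.mul ?_ h
        have h2 := h00.pow (k - k')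
        rwa [zero_pow (by omega)] at h2
      rw [zero_mul] at h1
      refine h1.congr' ?_
      filter_upwards [self_mem_nhdsWithin] with q hq
      have hq1 : q < 1 := hq
      have hq' : (1 - q) ≠ 0 := by linarith
      unfold G
      obtain ⟨d, rfl⟩ : ∃ d, k = k' + d := ⟨k - k', by omega⟩
      rw [Nat.add_sub_cancel_left, pow_add]
      field_simp
    exact ⟨⟨0, key⟩, key.limUnder_eq⟩
  · have key : Tendsto (G k' w I) (𝓝[<] 1) atTop := by
      have h1 : Tendsto (fun q : ℝ => G k w I q * ((1 - q) ^ (k' - k))⁻¹) (𝓝[<] 1) atTop := by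
        refine h.pos_mul_atTop hL ?_
        refine tendsto_inv_nhdsGT_zero.comp ?_
        refine tendsto_nhdsWithin_iff.2 ⟨?_, ?_⟩
        · have h2 := h00.pow (k' - k)
          rwa [zero_pow (by omega)] at h2
        · filter_upwards [self_mem_nhdsWithin] with q hq
          have hq1 : q < 1 := hq
          show (0 : ℝ) < (1 - q) ^ (k' - k)
          exact pow_pos (by linarith) _
      refine h1.congr' ?_
      filter_upwards [self_mem_nhdsWithin] with q hq
      have hq1 : q < 1 := hq
      have hq' : (1 - q) ≠ 0 := by linarith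
      unfold G
      obtain ⟨d, rfl⟩ : ∃ d, k' = k + d := ⟨k' - k, by omega⟩
      rw [Nat.add_sub_cancel_left, pow_add]
      field_simp
    refine ⟨?_, fun C hC => ?_⟩
    · rintro ⟨L', hL'⟩
      exact not_tendsto_nhds_of_tendsto_atTop key L' hL'
    · have h1 := key.eventually_gt_atTop C
      obtain ⟨q, hq1, hq2⟩ := (hC.and h1).exists
      exact absurd hq1 (not_le.2 hq2)

end Pool.Agent.KIR.S1a
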