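import Pool.Agent.KIR.S1a.FINH
import Pool.Agent.KIR.Base

/-!
# KIR, section S1a: S_HFA and S_TGH from Base
-/

set_option autoImplicit false

namespace Pool.Agent.KIR.S1a

open MvPolynomial Filter Topology

theorem t_TGH2 : S_TGH := fun _ _ _ _ _ W p hp _ hI => Base.TG_Gr W p hp hI

theorem t_HFA2 : S_HFA := by
  classical
  intro σ _ w hw a
  refine ⟨Base.fd w hw a, Base.finrank_Sa_le w hw a, fun I => ?_, fun I hI => ?_,
    fun I hI ha => ?_⟩
  · have h1 := Base.hf_eq w hw I a
    have h2 : Base.Ia w I a = Deg w I a := by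
      ext f
      rw [Base.mem_Ia]
      rfl
    rwa [h2] at h1
  · -- degree zero
    have hmap : (weightedHomogeneousSubmodule ℂ w 0).map (Ideal.Quotient.mkₐ ℂ I).toLinearMap =
        Submodule.span ℂ {(1 : S σ ⧸ I)} := by
      apply le_antisymm
      · rintro _ ⟨f, hf, rfl⟩
        have h1 := deg_zero hw ((mem_weightedHomogeneousSubmodule ℂ w 0 f).1 hf)
        rw [Submodule.mem_span_singleton]
        refine ⟨coeff 0 f, ?_⟩
        rw [h1, coeff_C, if_pos rfl]
        have h5 := (Ideal.Quotient.mkₐ ℂ I).commutes (coeff 0 f)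
        rw [Algebra.algebraMap_eq_smul_one] at h5
        exact ((map_smul (Ideal.Quotient.mkₐ ℂ I) (coeff 0 f) 1).trans (by rw [map_one])).symm.trans
          (congrArg _ (by rw [← Algebra.algebraMap_eq_smul_one]; rfl))
      · rw [Submodule.span_singleton_le_iff_mem]
        refine ⟨1, ?_, map_one (Ideal.Quotient.mkₐ ℂ I)⟩
        exact (mem_weightedHomogeneousSubmodule ℂ w 0 _).2 (isWeightedHomogeneous_one ℂ w)
    unfold hf
    rw [hmap]
    have : Nontrivial (S σ ⧸ I) := Ideal.Quotient.nontrivial_iff.2 hI
    exact finrank_span_singleton one_ne_zero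
  · have hmap : (weightedHomogeneousSubmodule ℂ w a).map (Ideal.Quotient.mkₐ ℂ I).toLinearMap =
        ⊥ := by
      rw [eq_bot_iff]
      rintro _ ⟨f, hf, rfl⟩
      rw [Submodule.mem_bot]
      have hf1 := (mem_weightedHomogeneousSubmodule ℂ w a f).1 hf
      have h0 : f ∈ I := by
        rw [f.as_sum]
        refine Ideal.sum_mem _ fun m hm => ?_
        have h1 : Finsupp.weight w m = a := hf1 (mem_support_iff.1 hm)
        have h2 : m ≠ 0 := by
          rintro rfl
          rw [map_zero] at h1
          omega
        obtain ⟨s, hs⟩ : ∃ s, m s ≠ 0 := by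
          by_contra hcon
          push Not at hcon
          exact h2 (Finsupp.ext hcon)
        have h3 : monomial m (coeff m f) = X s * monomial (m - Finsupp.single s 1) (coeff m f) := by
          have h4 : (X s : S σ) = monomial (Finsupp.single s 1) 1 := rfl
          rw [h4, monomial_mul, one_mul]
          congr 1
          rw [add_comm, tsub_add_cancel_of_le]
          rw [Finsupp.single_le_iff]
          omega
        rw [h3]
        exact I.mul_mem_right _ (hI s)
      exact Ideal.Quotient.eq_zero_iff_mem.2 h0
    unfold hf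
    rw [hmap]
    exact finrank_bot ℂ _

end Pool.Agent.KIR.S1a
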