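import Pool.Agent.KIR.S1a.Stm

/-!
Piece HMC of project KIR, section S1a (helper45).
-/

set_option autoImplicit false

namespace Pool.Agent.KIR.S1a

open MvPolynomial Filter Topology

/-- the components of a product with a homogeneous factor -/
theorem hmc_comp {σ : Type} [Fintype σ] (w : σ → ℕ) (f : S σ) (e : ℕ) (hf : IsWeightedHomogeneous w f e)
    (a : ℕ) (g : S σ) :
    weightedHomogeneousComponent w a (f * g) =
      if e ≤ a then f * weightedHomogeneousComponent w (a - e) g else 0 := by
  classical
  induction g using MvPolynomial.induction_on' with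
  | monomial m c =>
    have h1 : IsWeightedHomogeneous w (monomial m c : S σ) (Finsupp.weight w m) :=
      isWeightedHomogeneous_monomial w m c rfl
    have h2 : IsWeightedHomogeneous w (f * monomial m c) (e + Finsupp.weight w m) := hf.mul h1
    rw [weightedHomogeneousComponent_of_mem ((mem_weightedHomogeneousSubmodule _ _ _ _).2 h2),
      weightedHomogeneousComponent_of_mem ((mem_weightedHomogeneousSubmodule _ _ _ _).2 h1)]
    by_cases h3 : e ≤ a
    · rw [if_pos h3]
      by_cases h4 : a - e = Finsupp.weight w m
      · rw [if_pos h4, if_pos (by omega)]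
      · rw [if_neg h4, if_neg (by omega), mul_zero]
    · rw [if_neg h3, if_neg (by omega)]
  | add p q hp hq =>
    rw [mul_add, map_add, map_add, hp, hq]
    by_cases h3 : e ≤ a
    · rw [if_pos h3, if_pos h3, if_pos h3, mul_add]
    · rw [if_neg h3, if_neg h3, if_neg h3, add_zero]

theorem t_HMC : S_HMC := by
  intro σ _ w
  classical
  refine ⟨?_, ?_, ?_⟩
  · intro I f e hI hf
    refine ⟨?_, ?_⟩
    · intro h hh a
      obtain ⟨i, hi, j, hj, rfl⟩ := Submodule.mem_sup.1 hh
      obtain ⟨g, rfl⟩ := Ideal.mem_span_singleton'.1 hj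
      rw [map_add]
      refine Ideal.add_mem _ (Ideal.mem_sup_left (hI i hi a)) (Ideal.mem_sup_right ?_)
      rw [mul_comm g f, hmc_comp w f e hf a g]
      by_cases h3 : e ≤ a
      · rw [if_pos h3]
        exact Ideal.mul_mem_right _ _ (Ideal.mem_span_singleton_self f)
      · rw [if_neg h3]
        exact Ideal.zero_mem _
    · intro g hg a
      rw [mem_col] at hg ⊢
      have h1 := hI _ hg (e + a)
      rw [hmc_comp w f e hf (e + a) g, if_pos (Nat.le_add_right e a), Nat.add_sub_cancel_left] at h1
      exact h1
  · intro T f hf a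
    rw [mem_ideal_span_X_image] at hf ⊢
    intro m hm
    refine hf m ?_
    rw [mem_support_iff, coeff_weightedHomogeneousComponent] at hm
    rw [mem_support_iff]
    intro h0
    rw [h0, ite_self] at hm
    exact hm rfl
  · intro P J hJ hJP
    obtain ⟨h, hhJ, hhP⟩ := Set.not_subset.1 hJP
    by_contra hcon
    push Not at hcon
    apply hhP
    have h1 : ∀ a, weightedHomogeneousComponent w a h ∈ P := by
      intro a
      by_contra h2
      exact hcon _ a (hJ h hhJ a) h2 (weightedHomogeneousComponent_isWeightedHomogeneous a h)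
    have h2 := sum_weightedHomogeneousComponent w h
    rw [finsum_eq_sum _ (weightedHomogeneousComponent_finsupp h)] at h2
    change h ∈ P
    rw [← h2]
    exact Ideal.sum_mem _ (fun a _ => h1 a)

end Pool.Agent.KIR.S1a
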