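import Pool.Agent.KIR.S1a.Stm

/-!
Piece RAT of project KIR, section S1a (helper45): rationality of the Hilbert series.
-/

set_option autoImplicit false

namespace Pool.Agent.KIR.S1a

open MvPolynomial Filter Topology

theorem t_RAT (h1 : S_SER) (h2 : S_HMC) : S_RAT := by
  intro σ _ w hw I
  obtain ⟨-, -, hTop, -, hOne, hSeq⟩ := h1 σ w hw
  obtain ⟨hH, -, -⟩ := h2 σ w
  have : IsNoetherianRing (S σ) := MvPolynomial.isNoetherianRing
  induction I using WellFoundedGT.induction with
  | ind I ih =>
    intro hI
    by_cases hIt : I = ⊤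
    · refine ⟨[], 0, by simp, fun q _ _ => ?_⟩
      rw [hIt, hTop]
      simp
    by_cases hall : ∀ s, (X s : S σ) ∈ I
    · refine ⟨[], 1, by simp, fun q _ _ => ?_⟩
      rw [hOne I q hIt hall]
      simp
    push Not at hall
    obtain ⟨s, hs⟩ := hall
    have hX : IsWeightedHomogeneous w (X s : S σ) (w s) := isWeightedHomogeneous_X ℂ w s
    have hX0 : (X s : S σ) ≠ 0 := X_ne_zero s
    obtain ⟨hI1, hI2⟩ := hH I (X s) (w s) hI hX
    have hlt : I < I ⊔ Ideal.span {(X s : S σ)} := by
      refine lt_of_le_of_ne le_sup_left (fun h => hs ?_)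
      rw [h]
      exact Ideal.mem_sup_right (Ideal.mem_span_singleton_self _)
    have hle : I ≤ col I (X s) := fun g hg => mem_col.2 (I.mul_mem_left _ hg)
    obtain ⟨E, κ, hE, hκ⟩ := ih _ hlt hI1
    by_cases heq : I = col I (X s)
    · refine ⟨w s :: E, κ, ?_, fun q hq0 hq1 => ?_⟩
      · intro e he
        rcases List.mem_cons.1 he with rfl | he
        · exact hw s
        · exact hE e he
      · have h3 := hSeq I (X s) (w s) hI hX0 hX q hq0 hq1
        rw [← heq] at h3
        rw [List.map_cons, List.prod_cons, ← hκ q hq0 hq1]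
        have h4 : Hs w I q * (1 - q ^ w s) = Hs w (I ⊔ Ideal.span {(X s : S σ)}) q := by linear_combination h3
        rw [← h4]
        ring
    · obtain ⟨E', κ', hE', hκ'⟩ := ih _ (lt_of_le_of_ne hle heq) hI2
      refine ⟨E ++ E', κ * (E'.map (fun e => 1 - Polynomial.X ^ e)).prod +
        Polynomial.X ^ (w s) * κ' * (E.map (fun e => 1 - Polynomial.X ^ e)).prod, ?_, fun q hq0 hq1 => ?_⟩
      · intro e he
        rcases List.mem_append.1 he with he | he
        · exact hE e he
        · exact hE' e he
      · have h3 := hSeq I (X s) (w s) hI hX0 hX q hq0 hq1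
        have hev : ∀ L : List ℕ, ((L.map (fun e => (1 - Polynomial.X ^ e : Polynomial ℝ))).prod).eval q =
            (L.map (fun e => 1 - q ^ e)).prod := by
          intro L
          rw [Polynomial.eval_list_prod, List.map_map]
          congr 1
          refine List.map_congr_left (fun e _ => ?_)
          simp
        rw [List.map_append, List.prod_append, Polynomial.eval_add, Polynomial.eval_mul, Polynomial.eval_mul,
          Polynomial.eval_mul, hev, hev, ← hκ q hq0 hq1, ← hκ' q hq0 hq1, h3]
        simp only [Polynomial.eval_pow, Polynomial.eval_X]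
        ring

end Pool.Agent.KIR.S1a
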