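import Pool.Agent.KIR.S1a.Stm

/-!
# KIR, section S1a, piece SEQ (helper55): the exact sequence of multiplication by a homogeneous element
-/

set_option autoImplicit false

namespace Pool.Agent.KIR.S1a

open MvPolynomial

namespace SEQ

variable {σ : Type}

/-- component of degree `e + n` of `f * g` -/
theorem comp_mul_add (w : σ → ℕ) (f : S σ) (e : ℕ) (hf : IsWeightedHomogeneous w f e) (g : S σ)
    (n : ℕ) : weightedHomogeneousComponent w (e + n) (f * g) =
      f * weightedHomogeneousComponent w n g := by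
  classical
  ext m
  rw [coeff_weightedHomogeneousComponent, coeff_mul, coeff_mul]
  by_cases hm : Finsupp.weight w m = e + n
  · rw [if_pos hm]
    refine Finset.sum_congr rfl fun x hx => ?_
    rw [Finset.HasAntidiagonal.mem_antidiagonal] at hx
    rw [coeff_weightedHomogeneousComponent]
    by_cases h1 : coeff x.1 f = 0
    · rw [h1, zero_mul, zero_mul]
    · have h2 := hf h1
      have h3 : Finsupp.weight w x.1 + Finsupp.weight w x.2 = e + n := by
        rw [← map_add, hx, hm]
      have h4 : Finsupp.weight w x.2 = n := by omega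
      rw [if_pos h4]
  · rw [if_neg hm]
    symm
    refine Finset.sum_eq_zero fun x hx => ?_
    rw [Finset.HasAntidiagonal.mem_antidiagonal] at hx
    rw [coeff_weightedHomogeneousComponent]
    by_cases h1 : coeff x.1 f = 0
    · rw [h1, zero_mul]
    · have h2 := hf h1
      by_cases h4 : Finsupp.weight w x.2 = n
      · exfalso
        apply hm
        rw [← hx, map_add, h2, h4]
      · rw [if_neg h4, mul_zero]

/-- components of degree `a < e` of `f * g` vanish -/
theorem comp_mul_lt (w : σ → ℕ) (f : S σ) (e : ℕ) (hf : IsWeightedHomogeneous w f e) (g : S σ)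
    (a : ℕ) (ha : a < e) : weightedHomogeneousComponent w a (f * g) = 0 := by
  classical
  ext m
  rw [coeff_weightedHomogeneousComponent, coeff_mul, coeff_zero]
  split_ifs with hm
  · refine Finset.sum_eq_zero fun x hx => ?_
    rw [Finset.HasAntidiagonal.mem_antidiagonal] at hx
    by_cases h1 : coeff x.1 f = 0
    · rw [h1, zero_mul]
    · have h2 := hf h1
      have h3 : Finsupp.weight w x.1 + Finsupp.weight w x.2 = a := by
        rw [← map_add, hx, hm]
      omega
  · rfl

theorem mem_Deg (w : σ → ℕ) (I : Ideal (S σ)) (a : ℕ) (h : S σ) :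
    h ∈ Deg w I a ↔ IsWeightedHomogeneous w h a ∧ h ∈ I := by
  unfold Deg
  rw [Submodule.mem_inf, mem_weightedHomogeneousSubmodule, Submodule.restrictScalars_mem]

theorem comp_self (w : σ → ℕ) (h : S σ) (a : ℕ) (hh : IsWeightedHomogeneous w h a) :
    weightedHomogeneousComponent w a h = h :=
  hh.weightedHomogeneousComponent_same

/-- small degrees -/
theorem deg_lt (w : σ → ℕ) (I : Ideal (S σ)) (f : S σ) (e : ℕ) (hI : Hm w I)
    (hf : IsWeightedHomogeneous w f e) (a : ℕ) (ha : a < e) :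
    Deg w (I ⊔ Ideal.span {f}) a = Deg w I a := by
  ext h
  rw [mem_Deg, mem_Deg]
  constructor
  · rintro ⟨h1, h2⟩
    refine ⟨h1, ?_⟩
    obtain ⟨i, hi, j, hj, hij⟩ := Submodule.mem_sup.1 h2
    obtain ⟨g, hg⟩ := Ideal.mem_span_singleton'.1 hj
    rw [← comp_self w h a h1, ← hij, ← hg, mul_comm g f, map_add, comp_mul_lt w f e hf g a ha,
      add_zero]
    exact hI i hi a
  · rintro ⟨h1, h2⟩
    exact ⟨h1, Submodule.mem_sup_left h2⟩

/-- large degrees: the sum -/
theorem deg_ge (w : σ → ℕ) (I : Ideal (S σ)) (f : S σ) (e : ℕ) (hI : Hm w I)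
    (hf : IsWeightedHomogeneous w f e) (n : ℕ) :
    Deg w (I ⊔ Ideal.span {f}) (e + n) =
      Deg w I (e + n) ⊔ (weightedHomogeneousSubmodule ℂ w n).map (LinearMap.mulLeft ℂ f) := by
  ext h
  rw [mem_Deg]
  constructor
  · rintro ⟨h1, h2⟩
    obtain ⟨i, hi, j, hj, hij⟩ := Submodule.mem_sup.1 h2
    obtain ⟨g, hg⟩ := Ideal.mem_span_singleton'.1 hj
    refine Submodule.mem_sup.2 ⟨weightedHomogeneousComponent w (e + n) i, ?_,
      f * weightedHomogeneousComponent w n g, ?_, ?_⟩
    · rw [mem_Deg]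
      exact ⟨weightedHomogeneousComponent_isWeightedHomogeneous _ _, hI i hi _⟩
    · refine Submodule.mem_map.2 ⟨weightedHomogeneousComponent w n g, ?_, rfl⟩
      rw [mem_weightedHomogeneousSubmodule]
      exact weightedHomogeneousComponent_isWeightedHomogeneous _ _
    · rw [← comp_mul_add w f e hf g n, ← map_add]
      have h3 : i + f * g = h := by rw [← hij, ← hg, mul_comm g f]
      rw [h3]
      exact comp_self w h _ h1
  · intro hh
    obtain ⟨x, hx, y, hy, rfl⟩ := Submodule.mem_sup.1 hh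
    rw [mem_Deg] at hx
    obtain ⟨g, hg, rfl⟩ := Submodule.mem_map.1 hy
    rw [mem_weightedHomogeneousSubmodule] at hg
    refine ⟨hx.1.add (hf.mul hg), ?_⟩
    refine Ideal.add_mem _ (Submodule.mem_sup_left hx.2) (Submodule.mem_sup_right ?_)
    exact Ideal.mul_mem_right _ _ (Ideal.mem_span_singleton_self f)

/-- large degrees: the intersection -/
theorem deg_inf (w : σ → ℕ) (I : Ideal (S σ)) (f : S σ) (e : ℕ)
    (hf : IsWeightedHomogeneous w f e) (n : ℕ) :
    Deg w I (e + n) ⊓ (weightedHomogeneousSubmodule ℂ w n).map (LinearMap.mulLeft ℂ f) =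
      (Deg w (col I f) n).map (LinearMap.mulLeft ℂ f) := by
  ext h
  rw [Submodule.mem_inf, mem_Deg]
  constructor
  · rintro ⟨⟨h1, h2⟩, h3⟩
    obtain ⟨g, hg, rfl⟩ := Submodule.mem_map.1 h3
    rw [mem_weightedHomogeneousSubmodule] at hg
    refine Submodule.mem_map.2 ⟨g, ?_, rfl⟩
    rw [mem_Deg]
    exact ⟨hg, h2⟩
  · intro h3
    obtain ⟨g, hg, rfl⟩ := Submodule.mem_map.1 h3
    rw [mem_Deg] at hg
    refine ⟨⟨hf.mul hg.1, hg.2⟩, Submodule.mem_map.2 ⟨g, ?_, rfl⟩⟩
    rw [mem_weightedHomogeneousSubmodule]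
    exact hg.1

theorem mulLeft_inj (f : S σ) (hf : f ≠ 0) :
    Function.Injective (LinearMap.mulLeft ℂ f : S σ →ₗ[ℂ] S σ) := by
  intro a b hab
  exact mul_left_cancel₀ hf hab

theorem finrank_map (f : S σ) (hf : f ≠ 0) (p : Submodule ℂ (S σ)) :
    Module.finrank ℂ (p.map (LinearMap.mulLeft ℂ f)) = Module.finrank ℂ p :=
  (Submodule.equivMapOfInjective _ (mulLeft_inj f hf) p).finrank_eq.symm

end SEQ

open SEQ in
theorem t_SEQ (h : S_HFA) : S_SEQ := by
  intro σ _ w hw I f e hI hf0 hf a
  obtain ⟨hfin, -, hI1, -, -⟩ := h σ w hw a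
  have := hfin
  have e1 := hI1 I
  have e2 := hI1 (I ⊔ Ideal.span {f})
  by_cases hea : e ≤ a
  · rw [if_pos hea]
    obtain ⟨n, rfl⟩ := Nat.exists_eq_add_of_le hea
    rw [Nat.add_sub_cancel_left]
    obtain ⟨hfin2, -, hI2, -, -⟩ := h σ w hw n
    have := hfin2
    have e3 : KIR.hf w (col I f) n + Module.finrank ℂ (Deg w (col I f) n) =
      Module.finrank ℂ (weightedHomogeneousSubmodule ℂ w n) := hI2 (col I f)
    have : FiniteDimensional ℂ (Deg w I (e + n)) :=
      Submodule.finiteDimensional_of_le (S₂ := weightedHomogeneousSubmodule ℂ w (e + n)) inf_le_left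
    have e4 := Submodule.finrank_sup_add_finrank_inf_eq (Deg w I (e + n))
      ((weightedHomogeneousSubmodule ℂ w n).map (LinearMap.mulLeft ℂ f))
    rw [deg_inf w I f e hf n, ← deg_ge w I f e hI hf n, finrank_map f hf0, finrank_map f hf0] at e4
    have e5 : Module.finrank ℂ (Deg w (I ⊔ Ideal.span {f}) (e + n)) +
      Module.finrank ℂ (Deg w (col I f) n) = Module.finrank ℂ (Deg w I (e + n)) +
      Module.finrank ℂ (weightedHomogeneousSubmodule ℂ w n) := e4
    omega
  · rw [if_neg hea, add_zero]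
    rw [deg_lt w I f e hI hf a (by omega)] at e2
    omega

end Pool.Agent.KIR.S1a
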