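import Pool.Agent.KIR.S1a.Stm

/-!
# KIR, section S1a, piece SER (helper55): the Hilbert series
-/

set_option autoImplicit false

namespace Pool.Agent.KIR.S1a

open MvPolynomial

namespace SER

/-- the bounding series -/
theorem summable_bound (N : ℕ) (q : ℝ) (h0 : 0 < q) (h1 : q < 1) :
    Summable (fun a : ℕ => ((a : ℝ) + 1) ^ N * q ^ a) := by
  have h2 : Summable (fun a : ℕ => (a : ℝ) ^ N * q ^ a) :=
    summable_pow_mul_geometric_of_norm_lt_one N (by rw [Real.norm_of_nonneg h0.le]; exact h1)
  have h3 : Summable (fun a : ℕ => ((a + 1 : ℕ) : ℝ) ^ N * q ^ (a + 1)) :=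
    (summable_nat_add_iff 1).2 h2
  have h4 := h3.mul_left q⁻¹
  refine h4.congr fun a => ?_
  have h5 : q ≠ 0 := h0.ne'
  push_cast
  field_simp
  ring

end SER

open SER in
theorem t_SER (h1 : S_HFA) (h2 : S_SEQ) : S_SER := by
  intro σ _ w hw
  have hle : ∀ (I : Ideal (S σ)) (a : ℕ), hf w I a ≤ (a + 1) ^ (Fintype.card σ) := by
    intro I a
    obtain ⟨-, hb, hI, -, -⟩ := h1 σ w hw a
    have := hI I
    omega
  have hsum : ∀ (I : Ideal (S σ)) (q : ℝ), 0 < q → q < 1 →
      Summable (fun a : ℕ => (hf w I a : ℝ) * q ^ a) := by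
    intro I q h0 h1
    refine Summable.of_nonneg_of_le (fun a => by positivity) (fun a => ?_)
      (summable_bound (Fintype.card σ) q h0 h1)
    refine mul_le_mul_of_nonneg_right ?_ (by positivity)
    exact_mod_cast hle I a
  have hmono : ∀ (I J : Ideal (S σ)) (a : ℕ), I ≤ J → hf w J a ≤ hf w I a := by
    intro I J a hIJ
    obtain ⟨hfin, -, hI, -, -⟩ := h1 σ w hw a
    have e1 := hI I
    have e2 := hI J
    have : FiniteDimensional ℂ (Deg w J a) :=
      Submodule.finiteDimensional_of_le (S₂ := weightedHomogeneousSubmodule ℂ w a) inf_le_left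
    have hle : Deg w I a ≤ Deg w J a := by
      refine inf_le_inf le_rfl ?_
      intro x hx
      exact hIJ hx
    have e3 : Module.finrank ℂ (Deg w I a) ≤ Module.finrank ℂ (Deg w J a) :=
      Submodule.finrank_mono hle
    omega
  have htop : ∀ a, hf w (⊤ : Ideal (S σ)) a = 0 := by
    intro a
    obtain ⟨hfin, -, hI, -, -⟩ := h1 σ w hw a
    have e1 := hI ⊤
    have e2 : Deg w (⊤ : Ideal (S σ)) a = weightedHomogeneousSubmodule ℂ w a := by
      unfold Deg
      ext x
      rw [Submodule.mem_inf, Submodule.restrictScalars_mem]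
      exact ⟨fun h => h.1, fun h => ⟨h, Submodule.mem_top⟩⟩
    rw [e2] at e1
    have e3 : hf w (⊤ : Ideal (S σ)) a + Module.finrank ℂ (weightedHomogeneousSubmodule ℂ w a) =
      Module.finrank ℂ (weightedHomogeneousSubmodule ℂ w a) := e1
    omega
  refine ⟨hsum, ?_, ?_, ?_, ?_, ?_⟩
  · intro I J q h0 h1 hIJ
    unfold Hs
    refine (hsum J q h0 h1).tsum_le_tsum (fun a => ?_) (hsum I q h0 h1)
    refine mul_le_mul_of_nonneg_right ?_ (by positivity)
    exact_mod_cast hmono I J a hIJ
  · intro q
    unfold Hs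
    simp only [htop, Nat.cast_zero, zero_mul, tsum_zero]
  · intro I q h0 h1' hI
    obtain ⟨-, -, -, h3, -⟩ := h1 σ w hw 0
    have h4 := (hsum I q h0 h1').le_tsum 0 (fun a _ => by positivity)
    rw [h3 I hI] at h4
    unfold Hs
    simpa using h4
  · intro I q hI hX
    unfold Hs
    rw [tsum_eq_single 0]
    · obtain ⟨-, -, -, h3, -⟩ := h1 σ w hw 0
      rw [h3 I hI]
      simp
    · intro a ha
      obtain ⟨-, -, -, -, h4⟩ := h1 σ w hw a
      rw [h4 I hX (Nat.pos_of_ne_zero ha)]
      simp
  · intro I f e hI hf0 hfe q h0 h1'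
    have hs := h2 σ w hw I f e hI hf0 hfe
    have hA := hsum (I ⊔ Ideal.span {f}) q h0 h1'
    have hC := hsum (col I f) q h0 h1'
    set B : ℕ → ℝ := fun a => ((if e ≤ a then hf w (col I f) (a - e) else 0 : ℕ) : ℝ) * q ^ a
      with hB
    have hshift : ∀ a, B (a + e) = q ^ e * ((hf w (col I f) a : ℝ) * q ^ a) := by
      intro a
      simp only [hB]
      rw [if_pos (Nat.le_add_left e a), Nat.add_sub_cancel, pow_add]
      ring
    have hBs : Summable B := by
      refine (summable_nat_add_iff e).1 ?_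
      refine (hC.mul_left (q ^ e)).congr fun a => ?_
      rw [hshift]
    have hBt : ∑' a, B a = q ^ e * Hs w (col I f) q := by
      rw [← hBs.sum_add_tsum_nat_add e]
      have hz : ∑ i ∈ Finset.range e, B i = 0 := by
        refine Finset.sum_eq_zero fun i hi => ?_
        rw [Finset.mem_range] at hi
        simp only [hB]
        rw [if_neg (by omega)]
        simp
      rw [hz, zero_add]
      simp only [hshift]
      rw [tsum_mul_left]
      rfl
    rw [← hBt]
    unfold Hs
    rw [← hA.tsum_add hBs]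
    refine tsum_congr fun a => ?_
    rw [hs a]
    simp only [hB]
    push_cast
    ring

end Pool.Agent.KIR.S1a
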