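import Pool.Agent.KIR.S1a.Stm

/-!
# Project KIR, piece VAR: ideals generated by variables
-/

set_option autoImplicit false
set_option linter.all false

namespace Pool.Agent.KIR.S1a

open MvPolynomial Filter Topology

namespace VARx

theorem col_var {σ : Type} (T : Set σ) (s : σ) (hs : s ∉ T) :
    col (Ideal.span (X '' T) : Ideal (S σ)) (X s) = Ideal.span (X '' T) := by
  ext g
  rw [mem_col]
  constructor
  · intro h
    rw [mem_ideal_span_X_image] at h ⊢
    intro m hm
    have h1 : Finsupp.single s 1 + m ∈ (X s * g).support := by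
      rw [mem_support_iff, coeff_X_mul]
      exact mem_support_iff.1 hm
    obtain ⟨i, hi, hi2⟩ := h _ h1
    refine ⟨i, hi, ?_⟩
    have his : s ≠ i := by
      rintro rfl
      exact hs hi
    rw [Finsupp.add_apply, Finsupp.single_eq_of_ne' his, zero_add] at hi2
    exact hi2
  · intro h
    exact Ideal.mul_mem_left _ _ h

theorem ne_top {σ : Type} (T : Set σ) : (Ideal.span (X '' T) : Ideal (S σ)) ≠ ⊤ := by
  intro h
  have h1 : (1 : S σ) ∈ (Ideal.span (X '' T) : Ideal (S σ)) := by
    rw [h]
    trivial
  rw [mem_ideal_span_X_image] at h1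
  have h2 : (0 : σ →₀ ℕ) ∈ (1 : S σ).support := by
    rw [mem_support_iff, coeff_zero_one]
    exact one_ne_zero
  obtain ⟨i, _, hi⟩ := h1 _ h2
  exact hi rfl

end VARx

open VARx

theorem t_VAR (h1 : S_SER) (h2 : S_HMC) : S_VAR := by
  intro σ _ _ w hw T q hq0 hq1
  obtain ⟨_, _, _, _, hone, hrec⟩ := h1 σ w hw
  have key : ∀ U : Finset σ,
      Hs w (Ideal.span (X '' ((Uᶜ : Finset σ) : Set σ)) : Ideal (S σ)) q *
        ∏ s ∈ U, (1 - q ^ (w s)) = 1 := by
    intro U
    induction U using Finset.induction_on with
    | empty =>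
      rw [Finset.prod_empty, mul_one]
      refine hone _ q (ne_top _) fun s => ?_
      exact Ideal.subset_span ⟨s, by simp, rfl⟩
    | insert s U hs ih =>
      have hsT : s ∉ (((insert s U)ᶜ : Finset σ) : Set σ) := by simp
      have e1 : (Ideal.span (X '' ((Uᶜ : Finset σ) : Set σ)) : Ideal (S σ)) =
          Ideal.span (X '' (((insert s U)ᶜ : Finset σ) : Set σ)) ⊔ Ideal.span {X s} := by
        rw [← Ideal.span_union]
        congr 1
        ext x
        constructor
        · rintro ⟨i, hi, rfl⟩
          by_cases his : i = s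
          · exact Or.inr (by rw [his]; rfl)
          · refine Or.inl ⟨i, ?_, rfl⟩
            simp only [Finset.coe_compl, Set.mem_compl_iff, Finset.mem_coe,
              Finset.mem_insert, not_or] at hi ⊢
            exact ⟨his, hi⟩
        · rintro (⟨i, hi, rfl⟩ | hx)
          · refine ⟨i, ?_, rfl⟩
            simp only [Finset.coe_compl, Set.mem_compl_iff, Finset.mem_coe,
              Finset.mem_insert, not_or] at hi ⊢
            exact hi.2
          · refine ⟨s, ?_, hx.symm⟩
            simp only [Finset.coe_compl, Set.mem_compl_iff, Finset.mem_coe]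
            exact hs
      have hhom := (h2 σ w).2.1 (((insert s U)ᶜ : Finset σ) : Set σ)
      have h3 := hrec _ (X s) (w s) hhom (X_ne_zero s) (isWeightedHomogeneous_X ℂ w s) q hq0 hq1
      rw [col_var _ s hsT, ← e1] at h3
      rw [Finset.prod_insert hs]
      generalize Hs w (Ideal.span (X '' (((insert s U)ᶜ : Finset σ) : Set σ)) : Ideal (S σ)) q = a
        at h3 ⊢
      have h4 : a * (1 - q ^ (w s)) =
          Hs w (Ideal.span (X '' ((Uᶜ : Finset σ) : Set σ)) : Ideal (S σ)) q := by
        linarith
      rw [← mul_assoc, h4]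
      exact ih
  have h3 := key Tᶜ
  rwa [compl_compl] at h3

end Pool.Agent.KIR.S1a
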