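import Pool.Agent.KIR.S1a.FINH
import Pool.Agent.KIR.S1a.HFA2
import Pool.Agent.KIR.S1a.SEQ
import Pool.Agent.KIR.S1a.SER
import Pool.Agent.KIR.S1a.HMC
import Pool.Agent.KIR.S1a.VAR
import Pool.Agent.KIR.S1a.RAT
import Pool.Agent.KIR.S1a.ASY
import Pool.Agent.KIR.S1a.DIC

/-!
# KIR, section S1a: levels of graded ideals (helper62, with helper2, 45, 55, 72, 79, 94)
-/

set_option autoImplicit false

namespace Pool.Agent.KIR

open S1a

theorem s_SEQ : S_SEQ := t_SEQ t_HFA2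

theorem s_SER : S_SER := t_SER t_HFA2 s_SEQ

theorem s_VAR : S_VAR := t_VAR s_SER t_HMC

theorem s_RAT : S_RAT := t_RAT s_SER t_HMC

theorem t_LVL : S_LVL := lvl_of t_TGH2 s_SER s_VAR s_RAT t_ASY t_DIC

theorem t_STRICT : S_STRICT := strict_of t_TGH2 t_HMC s_SER s_VAR s_RAT t_ASY t_DIC

end Pool.Agent.KIR
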