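import Pool.Agent.KIR.S1a.Stm

/-!
# KIR, section S1a: assembly with hypotheses
-/

set_option autoImplicit false

namespace Pool.Agent.KIR.S1a

open MvPolynomial Filter Topology

theorem wt_pos {σ ρ : Type} [Fintype ρ] {W : σ → ρ → ℤ} {p : ρ → ℤ} (hp : Pos W p) (s : σ) :
    0 < wt W p s := by
  unfold wt
  have := hp s
  omega

theorem main_lim (h : S_SER) (hv : S_VAR) (hr : S_RAT) (ha : S_ASY) {σ : Type} [Fintype σ]
    [DecidableEq σ] (w : σ → ℕ) (hw : ∀ s, 0 < w s) (I : Ideal (S σ)) (hI : Hm w I)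
    (hne : I ≠ ⊤) : ∃ (k : ℕ) (L : ℝ), 0 < L ∧ Tendsto (G k w I) (𝓝[<] 1) (𝓝 L) := by
  obtain ⟨hsum, hanti, htop, hone, hvar, hseq⟩ := h σ w hw
  obtain ⟨E, κ, hE, hκ⟩ := hr σ w hw I hI
  have hbound : ∀ q : ℝ, 0 < q → q < 1 → (1 - q) ^ (Fintype.card σ) * Hs w I q ≤ 1 := by
    intro q hq0 hq1
    have h1 := hanti ⊥ I q hq0 hq1 bot_le
    have h2 := hv σ w hw ∅ q hq0 hq1
    rw [Finset.coe_empty, Set.image_empty, Ideal.span_empty, Finset.compl_empty] at h2
    have h3 : (1 - q) ^ (Fintype.card σ) ≤ ∏ s, (1 - q ^ (w s)) := by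
      rw [← Finset.card_univ, ← Finset.prod_const]
      refine Finset.prod_le_prod (fun _ _ => by linarith) fun s _ => ?_
      have h4 : q ^ (w s) ≤ q ^ 1 := pow_le_pow_of_le_one hq0.le hq1.le (hw s)
      rw [pow_one] at h4
      linarith
    have h5 : 0 < Hs w I q := lt_of_lt_of_le one_pos (hone I q hq0 hq1 hne)
    calc (1 - q) ^ (Fintype.card σ) * Hs w I q
        ≤ (∏ s, (1 - q ^ (w s))) * Hs w I q := mul_le_mul_of_nonneg_right h3 h5.le
      _ ≤ (∏ s, (1 - q ^ (w s))) * Hs w ⊥ q := by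
          refine mul_le_mul_of_nonneg_left h1 (le_trans ?_ h3)
          exact pow_nonneg (by linarith) _
      _ = 1 := by rw [mul_comm]; exact h2
  obtain ⟨d, L, hd, hL, hlim⟩ := ha (Hs w I) E κ (Fintype.card σ) 1 hE
    (fun q h0 h1 => hone I q h0 h1 hne) hκ hbound
  have hA : (0 : ℝ) < ∏ s, (w s : ℝ) := Finset.prod_pos fun s _ => by exact_mod_cast hw s
  refine ⟨Fintype.card σ - d, (∏ s, (w s : ℝ)) * L, mul_pos hA hL, ?_⟩
  refine (hlim.const_mul (∏ s, (w s : ℝ))).congr' ?_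
  filter_upwards [Ioo_mem_nhdsLT (show (0 : ℝ) < 1 from one_pos)] with q hq
  have hq1 : (1 - q) ≠ 0 := by have := hq.2; intro h; linarith
  unfold G
  have h6 : (1 - q) ^ (Fintype.card σ) = (1 - q) ^ (Fintype.card σ - d) * (1 - q) ^ d := by
    rw [← pow_add, Nat.sub_add_cancel hd]
  rw [h6]
  have h7 : (1 - q) ^ (Fintype.card σ - d) ≠ 0 := pow_ne_zero _ hq1
  field_simp

theorem top_lim (h : S_SER) {σ : Type} [Fintype σ] (w : σ → ℕ) (hw : ∀ s, 0 < w s) (k : ℕ) :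
    Has k w (⊤ : Ideal (S σ)) ∧ cl k w (⊤ : Ideal (S σ)) = 0 := by
  obtain ⟨hsum, hanti, htop, hone, hvar, hseq⟩ := h σ w hw
  have h1 : G k w (⊤ : Ideal (S σ)) = fun _ => 0 := by
    funext q
    unfold G
    rw [htop, mul_zero, zero_div]
  have h2 : Tendsto (G k w (⊤ : Ideal (S σ))) (𝓝[<] 1) (𝓝 0) := by
    rw [h1]; exact tendsto_const_nhds
  exact ⟨⟨0, h2⟩, h2.limUnder_eq⟩

theorem lvl_of (hT : S_TGH) (h : S_SER) (hv : S_VAR) (hr : S_RAT) (ha : S_ASY) (hd : S_DIC) :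
    S_LVL := by
  intro σ ρ _ _ _ W p hp I hI
  refine ⟨fun hne => ?_, fun htop k => ?_⟩
  · obtain ⟨k, L, hL, hlim⟩ := main_lim h hv hr ha (wt W p) (wt_pos hp) I
      (hT σ ρ W p hp I hI) hne
    obtain ⟨h1, h2, h3, h4⟩ := hd σ (wt W p) I k L hL hlim
    exact ⟨k, h1, by rw [h2]; exact hL, h3, fun k' hk => (h4 k' hk).1⟩
  · rw [htop]
    exact top_lim h (wt W p) (wt_pos hp) k

/-- a homogeneous polynomial of degree zero is constant -/
theorem deg_zero {σ : Type} {w : σ → ℕ} (hw : ∀ s, 0 < w s) {f : S σ}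
    (hf : IsWeightedHomogeneous w f 0) : f = C (coeff 0 f) := by
  classical
  ext m
  rw [coeff_C]
  by_cases hm : 0 = m
  · rw [if_pos hm, ← hm]
  · rw [if_neg hm]
    by_contra hne
    have h1 := hf hne
    rw [Finsupp.weight_apply, Finsupp.sum] at h1
    have h2 : m.support.Nonempty := by
      rw [Finsupp.support_nonempty_iff]
      exact fun h => hm h.symm
    obtain ⟨s, hs⟩ := h2
    have h3 : m s • w s ≤ ∑ i ∈ m.support, m i • w i :=
      Finset.single_le_sum (f := fun i => m i • w i) (fun _ _ => Nat.zero_le _) hs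
    rw [h1] at h3
    have h4 : 0 < m s := Nat.pos_of_ne_zero (Finsupp.mem_support_iff.1 hs)
    have h5 : 0 < m s • w s := by rw [smul_eq_mul]; exact Nat.mul_pos h4 (hw s)
    omega

theorem strict_of (hT : S_TGH) (hm : S_HMC) (h : S_SER) (hv : S_VAR) (hr : S_RAT) (ha : S_ASY)
    (hd : S_DIC) : S_STRICT := by
  intro σ ρ _ _ _ W P J p hp hP hTP hTJ hle hneq c hc
  set w := wt W p with hwdef
  have hw : ∀ s, 0 < w s := wt_pos hp
  have hmP : Hm w P := hT σ ρ W p hp P hTP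
  have hmJ : Hm w J := hT σ ρ W p hp J hTJ
  by_cases hJ : J = ⊤
  · have h1 := top_lim h w hw
    rw [hJ]
    exact ⟨(h1 (c + 1)).1, (h1 c).1, (h1 c).2⟩
  have hJP : ¬ J ≤ P := fun h' => hneq (le_antisymm hle h')
  obtain ⟨f, e, hfJ, hfP, hfe⟩ := (hm σ w).2.2 P J hmJ hJP
  have hf0 : f ≠ 0 := fun h' => hfP (by rw [h']; exact P.zero_mem)
  have he : 0 < e := by
    rcases Nat.eq_zero_or_pos e with h1 | h1
    · exfalso
      rw [h1] at hfe
      have h2 := deg_zero hw hfe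
      have h3 : coeff 0 f ≠ 0 := by
        intro h4
        rw [h4, C_0] at h2
        exact hf0 h2
      refine hJ ((Ideal.eq_top_iff_one J).2 ?_)
      have h5 : (1 : S σ) = C ((coeff 0 f)⁻¹) * f := by
        conv_rhs => rw [h2]
        rw [← C_mul, coeff_C, if_pos rfl, inv_mul_cancel₀ h3, C_1]
      rw [h5]
      exact J.mul_mem_left _ hfJ
    · exact h1
  obtain ⟨hsum, hanti, htop, hone, hvar, hseq⟩ := h σ w hw
  have hcol : col P f = P := by
    ext g
    rw [mem_col]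
    constructor
    · intro h1
      exact (hP.mem_or_mem h1).resolve_left hfP
    · intro h1
      exact P.mul_mem_left f h1
  have hA : (0 : ℝ) < ∏ s, (w s : ℝ) := Finset.prod_pos fun s _ => by exact_mod_cast hw s
  have hkey : ∀ q : ℝ, 0 < q → q < 1 → G (c + 1) w J q ≤ e * G c w P q := by
    intro q hq0 hq1
    have h1 := hseq P f e hmP hf0 hfe q hq0 hq1
    rw [hcol] at h1
    have h2 : Hs w J q ≤ Hs w (P ⊔ Ideal.span {f}) q :=
      hanti _ _ q hq0 hq1 (sup_le hle ((Ideal.span_singleton_le_iff_mem J).2 hfJ))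
    have hP0 : 0 < Hs w P q := lt_of_lt_of_le one_pos (hone P q hq0 hq1 hP.ne_top)
    have h3 : Hs w J q ≤ (e * (1 - q)) * Hs w P q := by
      have h4 : 1 + (e : ℝ) * (q - 1) ≤ (1 + (q - 1)) ^ e :=
        one_add_mul_le_pow (by linarith) e
      rw [add_sub_cancel] at h4
      have h5 : (1 - q ^ e) ≤ e * (1 - q) := by linarith
      calc Hs w J q ≤ (1 - q ^ e) * Hs w P q := by linarith
        _ ≤ _ := mul_le_mul_of_nonneg_right h5 hP0.le
    have hq : 0 < 1 - q := by linarith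
    unfold G
    rw [div_le_iff₀ (pow_pos hq _)]
    have h6 : e * ((∏ s, (w s : ℝ)) * (1 - q) ^ (Fintype.card σ) * Hs w P q / (1 - q) ^ c) *
        (1 - q) ^ (c + 1) = (∏ s, (w s : ℝ)) * (1 - q) ^ (Fintype.card σ) *
          ((e * (1 - q)) * Hs w P q) := by
      rw [pow_succ]
      have h7 : (1 - q) ^ c ≠ 0 := (pow_pos hq c).ne'
      field_simp
    rw [h6]
    exact mul_le_mul_of_nonneg_left h3 (mul_nonneg hA.le (pow_nonneg hq.le _))
  obtain ⟨L₀, hL₀⟩ := hc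
  have hbd : ∀ᶠ q in 𝓝[<] (1 : ℝ), G (c + 1) w J q ≤ e * (L₀ + 1) := by
    have h1 : ∀ᶠ q in 𝓝[<] (1 : ℝ), G c w P q < L₀ + 1 :=
      hL₀.eventually (gt_mem_nhds (by linarith))
    filter_upwards [h1, Ioo_mem_nhdsLT (show (0 : ℝ) < 1 from one_pos)] with q h2 hq
    exact (hkey q hq.1 hq.2).trans (mul_le_mul_of_nonneg_left h2.le (Nat.cast_nonneg e))
  obtain ⟨k, L, hL, hlim⟩ := main_lim h hv hr ha w hw J hmJ hJ
  obtain ⟨h1, h2, h3, h4⟩ := hd σ w J k L hL hlim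
  have hck : c + 1 ≤ k := by
    by_contra hcon
    exact (h4 (c + 1) (by omega)).2 _ hbd
  refine ⟨?_, (h3 c (by omega)).1, (h3 c (by omega)).2⟩
  rcases Nat.lt_or_ge (c + 1) k with h5 | h5
  · exact (h3 (c + 1) h5).1
  · have h6 : c + 1 = k := by omega
    rw [h6]; exact h1

end Pool.Agent.KIR.S1a
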