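import Pool.Agent.KIR.Defs

/-!
# PROJECT KIR, section S1a (helper62): Hilbert series of weighted graded ideals

Final theorems: `t_LVL : S_LVL` and `t_STRICT : S_STRICT` (see `Pool/Agent/KIR/Defs.lean`).

Every piece: file `Pool/Agent/KIR/S1a/NAME.lean`, `import Pool.Agent.KIR.S1a.Stm`, namespace
`Pool.Agent.KIR.S1a`, theorem `t_NAME : S_NAME` (or `theorem t_NAME (h1 : S_X) ... : S_NAME` if the docstring
says uses S_X).  All pieces are independent.
-/

set_option autoImplicit false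

namespace Pool.Agent.KIR.S1a

open MvPolynomial Filter Topology

/-- homogeneous ideals for natural weights -/
def Hm {σ : Type} (w : σ → ℕ) (I : Ideal (S σ)) : Prop :=
  ∀ f ∈ I, ∀ a : ℕ, weightedHomogeneousComponent w a f ∈ I

/-- the quotient ideal `I : f` -/
def col {σ : Type} (I : Ideal (S σ)) (f : S σ) : Ideal (S σ) where
  carrier := {g | f * g ∈ I}
  add_mem' := fun {a b} ha hb => by
    have h : f * (a + b) = f * a + f * b := mul_add _ _ _
    show f * (a + b) ∈ I
    rw [h]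
    exact I.add_mem ha hb
  zero_mem' := by
    show f * 0 ∈ I
    rw [mul_zero]
    exact I.zero_mem
  smul_mem' := fun c a ha => by
    have h : f * (c • a) = c * (f * a) := by rw [smul_eq_mul]; ring
    show f * (c • a) ∈ I
    rw [h]
    exact I.mul_mem_left c ha

theorem mem_col {σ : Type} {I : Ideal (S σ)} {f g : S σ} : g ∈ col I f ↔ f * g ∈ I := Iff.rfl

/-- the homogeneous elements of degree `a` in `I`, as a complex subspace of the polynomial ring -/
noncomputable def Deg {σ : Type} (w : σ → ℕ) (I : Ideal (S σ)) (a : ℕ) : Submodule ℂ (S σ) :=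
  weightedHomogeneousSubmodule ℂ w a ⊓ I.restrictScalars ℂ

/-- TGH (40 lines).  A torus graded ideal is graded for the natural weights of a positive parameter
vector.
Proof. Let `w = wt W p`.  For a monomial exponent `m`, `(Finsupp.weight w m : ℤ) = pair (Finsupp.weight W m) p`
(`Finsupp.weight_apply`, sum over the variables; `((wt W p s : ℕ) : ℤ) = pair (W s) p` because this is positive:
`Int.toNat_of_nonneg`).  So the component `weightedHomogeneousComponent w a f` is the sum of the components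
`weightedHomogeneousComponent W d f` over the finitely many `d` in the image of `f.support` under
`Finsupp.weight W` with `pair d p = a`: compare coefficients (`coeff_weightedHomogeneousComponent`). -/
def S_TGH : Prop := ∀ (σ ρ : Type) [Fintype σ] [DecidableEq σ] [Fintype ρ] (W : σ → ρ → ℤ)
  (p : ρ → ℤ), Pos W p → ∀ I : Ideal (S σ), TG W I → Hm (wt W p) I

/-- HFA (100 lines).  Finite dimension, and the Hilbert function as a codimension.
Proof. `weightedHomogeneousSubmodule ℂ w a` is the set of polynomials with support in the set `M` of the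
exponents `m` with `Finsupp.weight w m = a` (`weightedHomogeneousSubmodule_eq_finsupp_supported`), and `M` is
contained in the finite set of the `m` with `m s ≤ a` for all `s` (as `w s ≥ 1`), which has
`(a+1) ^ card σ` elements (e.g. `Finsupp.equivFunOnFinite` and `Fintype.piFinset`); so it is finite-dimensional of
dimension at most `(a+1) ^ card σ`.  The second statement is rank-nullity for the restriction of
`(Ideal.Quotient.mkₐ ℂ I).toLinearMap` to `weightedHomogeneousSubmodule ℂ w a`: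
its kernel is `Deg w I a` (comap of the subtype) and its range is the submodule in the definition of `hf`.
Last: the only monomial of weight `0` is `1`; `1 ∈ I` iff `I = ⊤`. -/
def S_HFA : Prop := ∀ (σ : Type) [Fintype σ] (w : σ → ℕ), (∀ s, 0 < w s) → ∀ a : ℕ,
  FiniteDimensional ℂ (weightedHomogeneousSubmodule ℂ w a : Submodule ℂ (S σ)) ∧
  Module.finrank ℂ (weightedHomogeneousSubmodule ℂ w a : Submodule ℂ (S σ)) ≤
    (a + 1) ^ (Fintype.card σ) ∧
  (∀ I : Ideal (S σ), hf w I a + Module.finrank ℂ (Deg w I a) =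
    Module.finrank ℂ (weightedHomogeneousSubmodule ℂ w a : Submodule ℂ (S σ))) ∧
  (∀ I : Ideal (S σ), I ≠ ⊤ → hf w I 0 = 1) ∧
  (∀ I : Ideal (S σ), (∀ s, X s ∈ I) → 0 < a → hf w I a = 0)

/-- SEQ (100 lines), uses S_HFA.  The exact sequence of multiplication by a homogeneous `f ≠ 0`.
Proof. By S_HFA it is enough to compare the dimensions of `Deg` (all are subspaces of the finite-dimensional
`V a = weightedHomogeneousSubmodule ℂ w a`).  If `a < e`: `Deg w (I ⊔ span {f}) a = Deg w I a`: if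
`h = i + f g` is homogeneous of degree `a` then it is the component of degree `a` of `i` plus that of `f g`,
which is zero; `i_a ∈ I` by `Hm`.  If `e ≤ a`: let `μ` be the (injective) multiplication by `f`.
`Deg w (I ⊔ span {f}) a = Deg w I a ⊔ (V (a-e)).map μ` (take components of degree `a` in `h = i + f g`;
the component of degree `a` of `f g` is `f` times the component of degree `a - e` of `g`) and
`Deg w I a ⊓ (V (a-e)).map μ = (Deg w (col I f) (a-e)).map μ`.  Now `Submodule.finrank_sup_add_finrank_inf_eq` and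
`LinearMap.finrank_map_eq` type lemmas (`Submodule.finrank_map_of_injective`/`LinearEquiv.finrank_eq`). -/
def S_SEQ : Prop := ∀ (σ : Type) [Fintype σ] (w : σ → ℕ), (∀ s, 0 < w s) →
  ∀ (I : Ideal (S σ)) (f : S σ) (e : ℕ), Hm w I → f ≠ 0 → IsWeightedHomogeneous w f e → ∀ a : ℕ,
  hf w I a = hf w (I ⊔ Ideal.span {f}) a + if e ≤ a then hf w (col I f) (a - e) else 0

/-- SER (80 lines), uses S_HFA, S_SEQ.  The same for the Hilbert series.
Proof. Summability: `hf w I a ≤ (a+1) ^ card σ` and `summable_pow_mul_geometric_of_norm_lt_one` (shifted) or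
`Summable.of_nonneg_of_le` with `2 ^ card σ * (a ^ card σ + 1) * q ^ a`.  (2) `I ≤ J` gives `Deg w I a ≤ Deg w J a`, so
`hf w J a ≤ hf w I a`; `hf w ⊤ a = 0` as `Deg w ⊤ a` is everything; `Hs ≥` its term `a = 0`, which is `1`.
(3) S_SEQ, `tsum_add`, and the shift by `e` (`Summable.sum_add_tsum_nat_add`; the first `e` terms are zero). -/
def S_SER : Prop := ∀ (σ : Type) [Fintype σ] (w : σ → ℕ), (∀ s, 0 < w s) →
  (∀ (I : Ideal (S σ)) (q : ℝ), 0 < q → q < 1 → Summable (fun a : ℕ => (hf w I a : ℝ) * q ^ a)) ∧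
  (∀ (I J : Ideal (S σ)) (q : ℝ), 0 < q → q < 1 → I ≤ J → Hs w J q ≤ Hs w I q) ∧
  (∀ q : ℝ, Hs w (⊤ : Ideal (S σ)) q = 0) ∧
  (∀ (I : Ideal (S σ)) (q : ℝ), 0 < q → q < 1 → I ≠ ⊤ → 1 ≤ Hs w I q) ∧
  (∀ (I : Ideal (S σ)) (q : ℝ), I ≠ ⊤ → (∀ s, X s ∈ I) → Hs w I q = 1) ∧
  (∀ (I : Ideal (S σ)) (f : S σ) (e : ℕ), Hm w I → f ≠ 0 → IsWeightedHomogeneous w f e →
    ∀ q : ℝ, 0 < q → q < 1 → Hs w I q = Hs w (I ⊔ Ideal.span {f}) q + q ^ e * Hs w (col I f) q)

/-- HMC (60 lines).  Homogeneity of `I ⊔ (f)` and `I : f`.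
Proof. If `h = i + f g` then the component of degree `a` is `i_a` plus the component of degree `a` of `f g`, which
is `f * (component of degree a - e of g)` if `e ≤ a` and `0` otherwise.  If `f g ∈ I` then `f * g_a` is the component of
degree `e + a` of `f g`, so it is in `I`.
Last: in `J` there is a homogeneous element which is not in `P` (`f` is the sum of its components,
`sum_weightedHomogeneousComponent`). -/
def S_HMC : Prop := ∀ (σ : Type) [Fintype σ] (w : σ → ℕ),
  (∀ (I : Ideal (S σ)) (f : S σ) (e : ℕ), Hm w I → IsWeightedHomogeneous w f e →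
    Hm w (I ⊔ Ideal.span {f}) ∧ Hm w (col I f)) ∧
  (∀ T : Set σ, Hm w (Ideal.span (X '' T) : Ideal (S σ))) ∧
  (∀ (P J : Ideal (S σ)), Hm w J → ¬ J ≤ P →
    ∃ (f : S σ) (e : ℕ), f ∈ J ∧ f ∉ P ∧ IsWeightedHomogeneous w f e)

/-- VAR (60 lines), uses S_SER, S_HMC.  The Hilbert series of an ideal generated by variables.
Proof. Induction on the complement of `T` (`Finset.induction` on `U`, the set of the variables not in `T`):
if `U` is empty all variables are in the ideal, which is proper (`mem_ideal_span_X_image`: `1` is not in it), so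
`Hs = 1`.  For `s ∉ T` let `I = span (X '' T)`; `col I (X s) = I` (`mem_ideal_span_X_image`: if `m` is in the support
of `g` then `m + single s 1` is in the support of `X s * g`, and `i ∈ T`, `i ≠ s`), so S_SER gives
`Hs I = Hs (I ⊔ span {X s}) + q ^ (w s) * Hs I`, i.e. `(1 - q ^ (w s)) * Hs I = Hs (span (X '' insert s T))`. -/
def S_VAR : Prop := ∀ (σ : Type) [Fintype σ] [DecidableEq σ] (w : σ → ℕ), (∀ s, 0 < w s) →
  ∀ (T : Finset σ) (q : ℝ), 0 < q → q < 1 →
    Hs w (Ideal.span (X '' (T : Set σ)) : Ideal (S σ)) q * ∏ s ∈ Tᶜ, (1 - q ^ (w s)) = 1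

/-- RAT (80 lines), uses S_SER, S_HMC.  Rationality.
Proof. Noetherian induction on `I` (`IsNoetherian`, `WellFoundedGT.induction`).  `I = ⊤`: `Hs = 0`, `E = []`,
`κ = 0`.  If all variables are in `I ≠ ⊤` then `Hs = 1`.  Otherwise let `X s ∉ I`, and put `I' = I ⊔ span {X s}`,
`I'' = col I (X s) ≥ I`; both are homogeneous (S_HMC), `I'` is strictly larger.  By S_SER
`Hs I = Hs I' + q ^ (w s) * Hs I''`.  If `I'' = I`, then `(1 - q ^ (w s)) * Hs I = Hs I'`: `E = w s :: E'`, `κ = κ'`.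
Otherwise `I''` is strictly larger too and `E = E' ++ E''`, `κ = κ' * ∏ E'' + X ^ (w s) * κ'' * ∏ E'`. -/
def S_RAT : Prop := ∀ (σ : Type) [Fintype σ] (w : σ → ℕ), (∀ s, 0 < w s) →
  ∀ I : Ideal (S σ), Hm w I → ∃ (E : List ℕ) (κ : Polynomial ℝ), (∀ e ∈ E, 0 < e) ∧
    ∀ q : ℝ, 0 < q → q < 1 → Hs w I q * (E.map (fun e => 1 - q ^ e)).prod = κ.eval q

/-- ASY (100 lines, analysis, Mathlib only).
Proof. `κ ≠ 0` (as `H ≥ 1` and the factors `1 - q ^ e` are positive on `(0,1)`), so `κ = (X - 1) ^ j * κ'` with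
`κ'.eval 1 ≠ 0` (`Polynomial.exists_eq_pow_rootMultiplicity_mul_and_not_dvd`).  `1 - q ^ e = (1 - q) * (1 + q + ... + q ^ (e-1))`
(`geom_sum`), so `∏ (1 - q ^ e) = (1 - q) ^ r * u q`, `u` a polynomial with `u 1 = ∏ e > 0`, `r = E.length`.  So
`H q * (1 - q) ^ r = (1 - q) ^ j * (± κ'.eval q) / u q`, with the limit `ℓ = ± κ'.eval 1 / u 1 ≠ 0` of the quotient.
If `j > r`: `H q = (1 - q) ^ (j - r) * (...) → 0`, contradiction to `H ≥ 1`.  So `d := r - j` and
`(1 - q) ^ d * H q → ℓ`, `ℓ ≥ 0` as `H > 0`, so `ℓ > 0`.  If `d > N`: `(1 - q) ^ d * H q = (1 - q) ^ (d - N) * ((1 - q) ^ N * H q)`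
and the last factor is bounded by `C`, so the limit would be `0`; so `d ≤ N`. -/
def S_ASY : Prop := ∀ (H : ℝ → ℝ) (E : List ℕ) (κ : Polynomial ℝ) (N : ℕ) (C : ℝ),
  (∀ e ∈ E, 0 < e) → (∀ q : ℝ, 0 < q → q < 1 → 1 ≤ H q) →
  (∀ q : ℝ, 0 < q → q < 1 → H q * (E.map (fun e => 1 - q ^ e)).prod = κ.eval q) →
  (∀ q : ℝ, 0 < q → q < 1 → (1 - q) ^ N * H q ≤ C) →
  ∃ (d : ℕ) (L : ℝ), d ≤ N ∧ 0 < L ∧ Tendsto (fun q => (1 - q) ^ d * H q) (𝓝[<] 1) (𝓝 L)

/-- DIC (80 lines, analysis).  The dichotomy for one function.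
Proof. `G k' = (1 - q) ^ (k - k') * G k → 0` for `k' < k`, and for `k' > k` `G k' = G k / (1 - q) ^ (k' - k) → ∞`
(`Tendsto.pos_mul_atTop`, `tendsto_inv_nhdsGT_zero`), so it is not bounded near `1` and has no limit.
`cl` is `Filter.Tendsto.limUnder_eq`.  (`(1 - q) ^ N / (1 - q) ^ k` for `k ≤ N` etc. are never needed, only the quotient
of `G k'` by `G k`; on `(0,1)` `1 - q ≠ 0`; `𝓝[<] 1` contains `(0,1)`: `Ioo_mem_nhdsLT`.) -/
def S_DIC : Prop := ∀ (σ : Type) [Fintype σ] (w : σ → ℕ) (I : Ideal (S σ)) (k : ℕ) (L : ℝ), 0 < L →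
  Tendsto (G k w I) (𝓝[<] 1) (𝓝 L) →
  Has k w I ∧ cl k w I = L ∧
  (∀ k', k' < k → Has k' w I ∧ cl k' w I = 0) ∧
  (∀ k', k < k' → ¬ Has k' w I ∧ ∀ C : ℝ, ¬ ∀ᶠ q in 𝓝[<] (1 : ℝ), G k' w I q ≤ C)

end Pool.Agent.KIR.S1a
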